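import Pool.Agent.TMX.Stmts

set_option autoImplicit false

namespace Pool.Agent.TMX.H65

open Finset
open Pool.Agent.Helper51_Max (I IsMax)
open Pool.Agent.Helper37_EM (var)
open Pool.Agent.TMX

theorem sum_refl (N : ℕ) (F : ℕ → ℝ) (v r : ℕ) (hv : v ≤ N) :
    ∑ i ∈ I N v r, F (N - i) = ∑ i ∈ I N (N - v) r, F i := by
  refine Finset.sum_nbij' (fun i => N - i) (fun i => N - i) ?_ ?_ ?_ ?_ ?_
  · intro i hi
    rw [Pool.Agent.Helper51_Max.I, Finset.mem_Icc] at hi ⊢
    refine ⟨?_, ?_⟩ <;> omega
  · intro i hi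
    rw [Pool.Agent.Helper51_Max.I, Finset.mem_Icc] at hi ⊢
    refine ⟨?_, ?_⟩ <;> omega
  · intro i hi
    rw [Pool.Agent.Helper51_Max.I, Finset.mem_Icc] at hi
    show N - (N - i) = i
    omega
  · intro i hi
    rw [Pool.Agent.Helper51_Max.I, Finset.mem_Icc] at hi
    show N - (N - i) = i
    omega
  · intro i hi
    rfl

theorem card_refl (N v r : ℕ) (hv : v ≤ N) : (I N (N - v) r).card = (I N v r).card := by
  rw [Pool.Agent.Helper51_Max.card_I, Pool.Agent.Helper51_Max.card_I]
  omega

/-- ROW REFL -/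
theorem refl : Refl := by
  intro N g M
  refine ⟨?_, ?_, ?_⟩
  · intro h
    refine ⟨fun i => h.nonneg (N - i), ?_, ?_⟩
    · intro v hv r
      rw [sum_refl N g v r hv, ← card_refl N v r hv]
      exact h.le (N - v) (Nat.sub_le N v) r
    · intro v hv
      obtain ⟨r, hr⟩ := h.attained (N - v) (Nat.sub_le N v)
      refine ⟨r, ?_⟩
      rw [sum_refl N g v r hv, ← card_refl N v r hv]
      exact hr
  · intro k w l h
    have h1 := h.kw
    have h2 := h.wl
    have h3 := h.lN
    refine ⟨by omega, by omega, by omega, ?_, ?_, ?_, ?_⟩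
    · intro i j hi hij hj
      exact h.dn2 (N - j) (N - i) (by omega) (by omega) (by omega)
    · intro i j hi hij hj
      exact h.up2 (N - j) (N - i) (by omega) (by omega) (by omega)
    · intro i j hi hij hj
      exact h.dn1 (N - j) (N - i) (by omega) (by omega) (by omega)
    · intro i j hi hij hj
      exact h.up1 (N - j) (N - i) (by omega) (by omega) (by omega)
  · unfold Pool.Agent.Helper37_EM.var
    have e0 : Finset.Ico 0 N = Finset.range N := by
      ext i
      simp
    rw [e0, ← Finset.sum_range_reflect (fun j => |g j - g (j + 1)|) N]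
    apply Finset.sum_congr rfl
    intro i hi
    rw [Finset.mem_range] at hi
    have e1 : N - 1 - i + 1 = N - i := by omega
    have e2 : N - (i + 1) = N - 1 - i := by omega
    show |g (N - i) - g (N - (i + 1))| = |g (N - 1 - i) - g (N - 1 - i + 1)|
    rw [e1, e2, abs_sub_comm]

end Pool.Agent.TMX.H65
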